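import Pool.Agent.H10.IEP.Targets

/-!
# MP_e37c09_lc, module PF: the argument of Solovay for functions on sequences
-/

open Ordinal Cardinal Order Set
open scoped ZFSet

universe u

namespace Pool.Agent.H79.IEP

open _root_.HD Pool.Agent.H10.IEP

theorem pf_sqc {μ : Ordinal.{u}} {g g' : Ordinal.{u} → Ordinal.{u}} (h : ∀ a < μ, g a = g' a) :
    sq μ g = sq μ g' := by
  ext p
  rw [Pool.Agent.H10.IEP.mem_sq, Pool.Agent.H10.IEP.mem_sq]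
  constructor
  · rintro ⟨a, ha, rfl⟩
    exact ⟨a, ha, by rw [h a ha]⟩
  · rintro ⟨a, ha, rfl⟩
    exact ⟨a, ha, by rw [h a ha]⟩

theorem pf_PF (hMB : T_MB.{u}) (hMD : T_MD.{u}) (hSQ : T_SQ.{u}) : T_PF.{u} := by
  intro δ η θ j μ κ ρ hs γ hγ F hF hFn hPh i hi
  have hj := hs.emb
  constructor
  · intro hp
    obtain ⟨g', hg1, hg2⟩ := hp _ (hMB δ η θ j μ κ ρ hs)
    have hex : ∀ a : Ordinal.{u}, ∃ x : Ordinal.{u}, a < μ → x < κ ∧ g' a = Jo j x := by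
      intro a
      by_cases ha : a < μ
      · obtain ⟨x, hx, e⟩ := (hg1 a ha).2
        exact ⟨x, fun _ => ⟨hx, e⟩⟩
      · exact ⟨0, fun h => absurd h ha⟩
    choose g hg using hex
    obtain ⟨hsV, hsj⟩ := hSQ δ η θ j hj μ hs.μδ κ hs.kη g fun a ha => (hg a ha).1
    have e : sq μ g' = j (sq μ g) := by
      rw [hsj]
      exact pf_sqc fun a ha => (hg a ha).2
    rw [e] at hg2
    -- pull back
    have hL1 : Loc.{u} fun v => ∃ i ∈ v 0, ZFSet.pair (v 1) i ∈ v 2 :=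
      Loc.exMem (R := fun i v => ZFSet.pair (v 1) i ∈ v 2) 0 (loc_pmem 2 0 3)
    have hmem : ∀ z ∈ [γ.toZFSet, sq μ g, F], z ∈ V_ η := by
      simp only [List.mem_cons, List.not_mem_nil, or_false, forall_eq_or_imp, forall_eq]
      exact ⟨Gd.ord.2 hγ, hsV, hF⟩
    have t1 := hj.trl hL1 [γ.toZFSet, sq μ g, F] hmem
    have h3 : ∃ i ∈ γ.toZFSet, ZFSet.pair (sq μ g) i ∈ F := by
      refine t1.2 ⟨i.toZFSet, ?_, ?_⟩
      · show i.toZFSet ∈ j γ.toZFSet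
        rw [hj.ord hγ]
        exact toZFSet_mem_toZFSet_iff.2 hi
      · show ZFSet.pair (j (sq μ g)) i.toZFSet ∈ j F
        exact hg2
    obtain ⟨_, h4, h5⟩ := h3
    obtain ⟨a, ha, rfl⟩ := mem_toZFSet_iff.1 h4
    refine ⟨a, ha, ?_⟩
    have hL2 : Loc.{u} fun v => ∀ i ∈ v 0, ∀ i' ∈ v 0, ZFSet.pair (v 1) i ∈ v 2 →
        ZFSet.pair (v 1) i' ∈ v 2 → i = i' :=
      Loc.allMem (R := fun i v => ∀ i' ∈ v 0, ZFSet.pair (v 1) i ∈ v 2 →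
        ZFSet.pair (v 1) i' ∈ v 2 → i = i') 0
        (Loc.allMem (R := fun i' v => ZFSet.pair (v 2) (v 0) ∈ v 3 →
          ZFSet.pair (v 2) i' ∈ v 3 → v 0 = i') 1
          ((loc_pmem 3 1 4).imp ((loc_pmem 3 0 4).imp (Loc.eq 1 0))))
    have t2 := hj.trl hL2 [γ.toZFSet, sq μ g, F] hmem
    have h6 := t2.1 (fun i _ i' _ h h' => hFn _ _ _ h h')
    have h7 : ∀ i ∈ j γ.toZFSet, ∀ i' ∈ j γ.toZFSet, ZFSet.pair (j (sq μ g)) i ∈ j F →
        ZFSet.pair (j (sq μ g)) i' ∈ j F → i = i' := h6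
    rw [hj.ord hγ] at h7
    have haη : a < η := ha.trans hγ
    have h9 : ZFSet.pair (j (sq μ g)) (Jo j a).toZFSet ∈ j F := by
      have := (hj.mem (hj.gd.pair hsV (Gd.ord.2 haη)) hF).1 h5
      rwa [hj.pair hsV (Gd.ord.2 haη), hj.ord haη] at this
    have h8 := h7 i.toZFSet (toZFSet_mem_toZFSet_iff.2 hi) (Jo j a).toZFSet
      (toZFSet_mem_toZFSet_iff.2 ((hj.lt_iff haη hγ).2 ha)) hg2 h9
    exact toZFSet_injective h8
  · rintro ⟨i0, hi0, rfl⟩ A hA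
    obtain ⟨g, hg1, hg2⟩ := hPh i0 hi0 _ (hMD δ η θ j μ κ ρ hs A hA)
    obtain ⟨hsV, hsj⟩ := hSQ δ η θ j hj μ hs.μδ κ hs.kη g fun a ha => (hg1 a ha).1
    refine ⟨fun a => Jo j (g a), fun a ha => ⟨hs.lt _ (hg1 a ha).1, (hg1 a ha).2⟩, ?_⟩
    have hi0η : i0 < η := hi0.trans hγ
    have := (hj.mem (hj.gd.pair hsV (Gd.ord.2 hi0η)) hF).1 hg2
    rwa [hj.pair hsV (Gd.ord.2 hi0η), hj.ord hi0η, hsj] at this

end Pool.Agent.H79.IEP
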